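import Pool.Agent.Lib.MP_bc6037_nt.Limit

set_option autoImplicit false

/-!
# Piltz divisor problem: the pointwise, mean-square and one-sided mean exponents have one limit

For every `k ≥ 1` the mean exponents of the positive part, of the negative part and of the absolute
value of `Δ_k` coincide; call this number `γ_k`. Then `0 ≤ γ_k ≤ β_k ≤ α_k < 1`, for all `j`

  `α_j ≤ (k γ_k + j) / (k + j)`,

and `γ_k`, `β_k`, `α_k` all converge, as `k → ∞`, to the Lindelof abscissa of the zeta function,
which is also an upper bound of all `α_j`. All this is unconditional.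
-/

open Filter Topology

namespace Pool.Agent.Results.MP_bc6037_nt.CommonLimit

open Pool.Agent.Lib.MP_bc6037_nt Pool.Agent.Lib.MP_bc6037_nt.Limit

theorem result :
    (∀ k : ℕ, Tendsto (fun x : ℝ => Delta k x / x) atTop (𝓝 0)) ∧
    (∀ k : ℕ, 1 ≤ k →
      meanExp (fun y => max (Delta k y) 0) = meanExp (fun y => |Delta k y|) ∧
      meanExp (fun y => max (-Delta k y) 0) = meanExp (fun y => |Delta k y|) ∧
      0 ≤ meanExp (fun y => |Delta k y|) ∧
      meanExp (fun y => |Delta k y|) ≤ beta k ∧
      beta k ≤ alpha k ∧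
      alpha k < 1 ∧
      ∀ j : ℕ, alpha j ≤ (k * meanExp (fun y => |Delta k y|) + j) / (k + j)) ∧
    (∀ j : ℕ, alpha j ≤ lindelofAbscissa) ∧
    Tendsto (fun k : ℕ => meanExp (fun y => |Delta k y|)) atTop (𝓝 lindelofAbscissa) ∧
    Tendsto beta atTop (𝓝 lindelofAbscissa) ∧
    Tendsto alpha atTop (𝓝 lindelofAbscissa) := by
  refine ⟨fun k => Exponents.mainPoly_spec k, fun k hk => ⟨?_, ?_, meanExp_nonneg _,
    meanExp_le_beta k, beta_le_alpha k, alpha_lt_one k, fun j => alpha_le hk⟩,
    alpha_le_lindelof, ?_, ?_, ?_⟩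
  · simpa using meanExp_one_sided k (τ := 1) (Or.inl rfl)
  · simpa using meanExp_one_sided k (τ := -1) (Or.inr rfl)
  · exact tendsto_of_squeeze (fun k => le_rfl)
      (fun k => (meanExp_le_beta k).trans (beta_le_alpha k))
  · exact tendsto_of_squeeze meanExp_le_beta beta_le_alpha
  · exact tendsto_of_squeeze (fun k => (meanExp_le_beta k).trans (beta_le_alpha k))
      (fun k => le_rfl)

end Pool.Agent.Results.MP_bc6037_nt.CommonLimit
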