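import Pool.Agent.Lib.MP_bc6037_nt.RecFinal

set_option autoImplicit false

/-!
# Piltz divisor problem: the mean-square exponent is a convex function of `1/k`

`β_k` is a convex function of `1/k` (`k ≥ 1`, `β_1 = 0`) with limit the Lindelof abscissa `L` of the
zeta function at `1/k → 0`. Hence `β_k / (1 - 1/k)` is nondecreasing, between `1/2` and `L`, and the
set of all `k` with `β_k = (k-1)/(2k)` is an initial segment.
-/

open Filter Topology

namespace Pool.Agent.Results.MP_bc6037_nt.ConvexInReciprocal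

open Pool.Agent.Lib.MP_bc6037_nt Pool.Agent.Lib.MP_bc6037_nt.Limit Pool.Agent.Lib.MP_bc6037_nt.Rec

theorem result :
    (∀ k : ℕ, Tendsto (fun x : ℝ => Delta k x / x) atTop (𝓝 0)) ∧
    (∀ i j k : ℕ, 1 ≤ i → 1 ≤ j → 1 ≤ k → ∀ t : ℝ, 0 ≤ t → t ≤ 1 →
      1 / (j : ℝ) = (1 - t) * (1 / i) + t * (1 / k) →
      beta j ≤ (1 - t) * beta i + t * beta k) ∧
    beta 1 = 0 ∧
    Tendsto beta atTop (𝓝 lindelofAbscissa) ∧
    (∀ i k : ℕ, 1 ≤ i → i ≤ k →
      beta k ≤ (i / k : ℝ) * beta i + (1 - (i / k : ℝ)) * lindelofAbscissa) ∧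
    (∀ j k : ℕ, 2 ≤ j → j ≤ k →
      1 / 2 ≤ beta j / (1 - 1 / (j : ℝ)) ∧
      beta j / (1 - 1 / (j : ℝ)) ≤ beta k / (1 - 1 / (k : ℝ)) ∧
      beta k / (1 - 1 / (k : ℝ)) ≤ lindelofAbscissa) ∧
    (∀ j k : ℕ, 1 ≤ j → j ≤ k → beta k = ((k : ℝ) - 1) / (2 * k) →
      beta j = ((j : ℝ) - 1) / (2 * j)) := by
  have hratio : ∀ j : ℕ, 2 ≤ j → 1 / 2 ≤ beta j / (1 - 1 / (j : ℝ)) := by
    intro j hj
    have hj0 : (2 : ℝ) ≤ j := by exact_mod_cast hj
    have q1 : 1 / (j : ℝ) ≤ 1 / 2 := one_div_le_one_div_of_le (by norm_num) hj0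
    rw [le_div_iff₀ (by linarith)]
    refine le_trans (le_of_eq ?_) (beta_ge hj)
    field_simp
  refine ⟨fun k => Exponents.mainPoly_spec k, fun i j k hi hj hk t h0 h1 h => ?_, beta_one,
    beta_tendsto, fun i k hi hik => beta_le_lindelof hi hik, fun j k hj hjk =>
    ⟨hratio j hj, beta_ratio_mono hj hjk, ?_⟩, ?_⟩
  · exact beta_convex hi hj hk h0 h1 h
  · have hk2 : 2 ≤ k := hj.trans hjk
    have hk0 : (2 : ℝ) ≤ k := by exact_mod_cast hk2
    have q1 : 1 / (k : ℝ) ≤ 1 / 2 := one_div_le_one_div_of_le (by norm_num) hk0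
    have h := beta_le_lindelof (i := 1) (k := k) le_rfl (by omega)
    rw [beta_one, mul_zero, zero_add] at h
    rw [div_le_iff₀ (by linarith)]
    refine h.trans (le_of_eq ?_)
    push_cast
    ring
  · intro j k hj hjk h
    rcases hj.eq_or_lt with hj1 | hj1
    · rw [← hj1, beta_one]
      simp
    · have hj2 : 2 ≤ j := hj1
      have hk2 : 2 ≤ k := hj2.trans hjk
      have hj0 : (2 : ℝ) ≤ j := by exact_mod_cast hj2
      have hk0 : (2 : ℝ) ≤ k := by exact_mod_cast hk2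
      have q1 : 1 / (j : ℝ) ≤ 1 / 2 := one_div_le_one_div_of_le (by norm_num) hj0
      have q2 : 1 / (k : ℝ) ≤ 1 / 2 := one_div_le_one_div_of_le (by norm_num) hk0
      have h1 := beta_ratio_mono hj2 hjk
      have e : beta k / (1 - 1 / (k : ℝ)) = 1 / 2 := by
        rw [h, div_eq_iff (by linarith)]
        field_simp
      rw [e, div_le_iff₀ (by linarith)] at h1
      apply le_antisymm _ (beta_ge hj2)
      refine h1.trans (le_of_eq ?_)
      field_simp

end Pool.Agent.Results.MP_bc6037_nt.ConvexInReciprocal
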