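import Pool.Agent.Lib.MP_bc6037_nt.Excess
import Pool.Agent.Lib.MP_bc6037_nt.Exponents

set_option autoImplicit false

/-!
# Piltz divisor problem: what the mean square on a window knows

For every `k ≥ 2` put `y(x) = Δ_k(x) x^(-(k-1)/(2k))` and consider all windows `[X, X + h]` with
`C X^(1-1/k) ≤ h ≤ X`, `X ≥ X₀`, on which the mean square of `y` is at most `B`.  Up to `ε`, the
excess of the mean square over Tong's constant is the mean square of the difference between `y` and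
a finite section of its Voronoi expansion, and its square root bounds the Kantorovich distance
between the distribution of `y` on the window and the conjectural limit law.
-/

open Filter Topology MeasureTheory

namespace Pool.Agent.Results.MP_bc6037_nt.MeanSquareRigidity

open Pool.Agent.Lib.MP_bc6037_nt

/-- `q` is positive and not divisible by the `k`-th power of an integer `a > 1`. -/
def KthPowerFree (k q : ℕ) : Prop := 0 < q ∧ ∀ a : ℕ, 1 < a → ¬ a ^ k ∣ q

/-- The component that belongs to `q`: the series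
`(π √k)⁻¹ ∑_{a ≥ 1} d_k(a^k q) (a^k q)^(-(k+1)/(2k)) cos (2 π a u + π (k-3)/4)`
(the sum over `a` is written with `a + 1`, `a ≥ 0`). -/
noncomputable def component (k q : ℕ) (u : ℝ) : ℝ :=
  ∑' a : ℕ, (((ArithmeticFunction.zeta ^ k : ArithmeticFunction ℕ) ((a + 1) ^ k * q) : ℕ) : ℝ) /
    (Real.pi * √k * (((a + 1) ^ k * q : ℕ) : ℝ) ^ (((k : ℝ) + 1) / (2 * k))) *
    Real.cos (2 * Real.pi * ((a : ℝ) + 1) * u + Real.pi * ((k : ℝ) - 3) / 4)

/-- The terms `n = a^k q`, `q ∈ S`, of the Voronoi expansion of the normalised error. -/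
noncomputable def voronoi (k : ℕ) (S : Finset ℕ) (x : ℝ) : ℝ :=
  ∑ q ∈ S, component k q (k * ((q : ℝ) ^ (1 / k : ℝ) * x ^ (1 / k : ℝ)))

/-- The expectation of `g (∑_{q ∈ S} component k q (U_q))`, where the `U_q` are independent and
uniform on `(0, 1]`. -/
noncomputable def expect (k : ℕ) (S : Finset ℕ) (g : ℝ → ℝ) : ℝ :=
  ∫ u in {u : S → ℝ | ∀ q, u q ∈ Set.Ioc (0 : ℝ) 1}, g (∑ q : S, component k q (u q))

/-- The normalised error term. -/
noncomputable def nrm (k : ℕ) (P : Polynomial ℝ) (x : ℝ) : ℝ :=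
  Err k P x / x ^ (((k : ℝ) - 1) / (2 * k))

/-- `Q X h` holds for all `X ≥ X₀` and `C X^(1-1/k) ≤ h ≤ X`, for suitable `C` and `X₀`. -/
def LongWindows (k : ℕ) (Q : ℝ → ℝ → Prop) : Prop :=
  ∃ C X₀ : ℝ, ∀ X : ℝ, X₀ ≤ X → ∀ h : ℝ, C * X ^ (1 - 1 / (k : ℝ)) ≤ h → h ≤ X → Q X h

/-- The `n`-th term `d_k(n)² / (2 π² k n^(1+1/k))` of Tong's constant. -/
noncomputable def tongTerm (k n : ℕ) : ℝ :=
  (((ArithmeticFunction.zeta ^ k : ArithmeticFunction ℕ) n : ℕ) : ℝ) ^ 2 /
    (2 * Real.pi ^ 2 * k * (n : ℝ) ^ (1 + 1 / (k : ℝ)))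

lemma component_eq (k q : ℕ) (u : ℝ) : component k q u = lawTerm k q u := by
  unfold component lawTerm
  refine tsum_congr fun a => ?_
  rw [amp, dk, Real.rpow_neg (Nat.cast_nonneg _), div_eq_mul_inv, mul_inv]
  ring

lemma expect_eq (k : ℕ) (S : Finset ℕ) (g : ℝ → ℝ) : expect k S g = Rigid.EL k S g := by
  unfold expect Rigid.EL
  simp only [component_eq]

lemma voronoi_eq (k : ℕ) (S : Finset ℕ) (x : ℝ) : voronoi k S x = Rigid.sec k S x := by
  unfold voronoi Rigid.sec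
  simp only [component_eq]

theorem result (k : ℕ) (hk : 2 ≤ k) : ∃ P : Polynomial ℝ,
    Tendsto (fun x : ℝ => Err k P x / x) atTop (𝓝 0) ∧
    Summable (tongTerm k) ∧
    ∀ B ε : ℝ, 0 < ε → ∃ S₀ : Finset ℕ, (∀ q ∈ S₀, KthPowerFree k q) ∧
      ∀ S : Finset ℕ, S₀ ⊆ S → (∀ q ∈ S, KthPowerFree k q) →
      LongWindows k fun X h => (∫ x in X..(X + h), nrm k P x ^ 2) ≤ B * h →
        |(∫ x in X..(X + h), (nrm k P x - voronoi k S x) ^ 2) -
          ((∫ x in X..(X + h), nrm k P x ^ 2) - (∑' n, tongTerm k n) * h)| ≤ ε * h ∧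
        ∀ g : ℝ → ℝ, LipschitzWith 1 g →
        |(∫ x in X..(X + h), g (nrm k P x)) - expect k S g * h| ≤
          (√(max ((∫ x in X..(X + h), nrm k P x ^ 2) / h - ∑' n, tongTerm k n) 0) + ε) * h := by
  obtain ⟨Z, hZ, hZ', -⟩ := Exponents.mainPoly_data k
  have hT : tongTerm k = Rigid.vterm k := rfl
  refine ⟨mainPoly k, Exponents.mainPoly_spec k, ?_, ?_⟩
  · rw [hT]
    exact Rigid.vterm_summable (by omega)
  · intro B ε hε
    obtain ⟨S₀, hS₀, hS₁⟩ := Rigid.excess_main hk hZ hZ' B hε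
    refine ⟨S₀, hS₀, fun S hSS hS => ?_⟩
    refine (hS₁ S hSS hS).mono fun X h hq hms => ?_
    obtain ⟨h1, h2⟩ := hq hms
    refine ⟨?_, fun g hg => ?_⟩
    · simp only [voronoi_eq]
      exact h1
    · rw [expect_eq]
      refine h2 g fun y z => ?_
      have h3 := hg.dist_le_mul y z
      rw [Real.dist_eq, Real.dist_eq, NNReal.coe_one, one_mul] at h3
      exact h3

end Pool.Agent.Results.MP_bc6037_nt.MeanSquareRigidity
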