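import Pool.Agent.Lib.MP_bc6037_nt.MeanSquare
import Pool.Agent.Lib.MP_bc6037_nt.Converse

set_option autoImplicit false

/-!
# Piltz divisor problem: a one-sided criterion, for infinitely many `k`, for the mean-square exponents

Write `D_k(x) = ∑_{n ≤ x} d_k(n)`. The following are equivalent:

* for every `k ≥ 2` and every `b > (k-1)/(2k)` one has
  `∫_1^x (D_k(y) - y P(log y))² dy ≤ C x^{1+2b}` for some polynomial `P`
  (the upper-bound half, for all `k`, of `β_k = (k-1)/(2k)`);
* for every `ε > 0` there are arbitrarily large `k` such that, for one choice of sign, the part of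
  that sign of `Δ_k` has mean value `O(x^{1/2+ε})`, i.e.
  `∫_1^x max(± Δ_k(y), 0) dy ≤ C x^{3/2+ε}`.

Proof of the nontrivial direction: Landau's lemma turns the one-sided bound into absolute
convergence of the Mellin transform `ζ(s)^k/s - Q(s)` of `Δ_k` for `Re s > 1/2 + ε`, so
`|ζ(s)|^k ≤ C |s|` there. Letting `k → ∞` and using the functional equation and
Phragmen-Lindelof one bounds `ζ` to the left of `1/2`, and a second use of Landau's lemma, applied to
the nonnegative function `Δ_k²` and to the holomorphic function `∫ Z(s+it) Z(s-it) dt`, gives the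
mean-square bounds for all `k`.
-/

open MeasureTheory Filter

namespace Pool.Agent.Results.MP_bc6037_nt.OneSidedInfinitelyOften

open Pool.Agent.Lib.MP_bc6037_nt

theorem result :
    (∀ k : ℕ, 2 ≤ k → ∀ b : ℝ, ((k : ℝ) - 1) / (2 * k) < b →
        ∃ P : Polynomial ℝ, ∃ C : ℝ, ∀ x : ℝ, 1 ≤ x →
          (∫ y in (1 : ℝ)..x,
            ((∑ n ∈ Finset.Icc 1 ⌊y⌋₊,
              (((ArithmeticFunction.zeta ^ k : ArithmeticFunction ℕ) n : ℕ) : ℝ))
              - y * P.eval (Real.log y)) ^ 2) ≤ C * x ^ (1 + 2 * b)) ↔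
    (∀ ε : ℝ, 0 < ε → ∀ K : ℕ, ∃ k : ℕ, K ≤ k ∧ ∃ P : Polynomial ℝ,
        Tendsto (fun x : ℝ =>
          ((∑ n ∈ Finset.Icc 1 ⌊x⌋₊,
              (((ArithmeticFunction.zeta ^ k : ArithmeticFunction ℕ) n : ℕ) : ℝ))
              - x * P.eval (Real.log x)) / x) atTop (nhds 0) ∧
        ∃ τ : ℝ, (τ = 1 ∨ τ = -1) ∧ ∃ C : ℝ, ∀ x : ℝ, 1 ≤ x →
          (∫ y in (1 : ℝ)..x,
            max (τ * ((∑ n ∈ Finset.Icc 1 ⌊y⌋₊,
              (((ArithmeticFunction.zeta ^ k : ArithmeticFunction ℕ) n : ℕ) : ℝ))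
              - y * P.eval (Real.log y))) 0) ≤ C * x ^ (3 / 2 + ε)) := by
  constructor
  · intro h ε hε K
    set k : ℕ := max K 2 with hk
    have hk2 : 2 ≤ k := le_max_right _ _
    have hk0 : (0 : ℝ) < k := by
      have : 0 < k := by omega
      exact_mod_cast this
    set ε' : ℝ := min ε (1 / 4) with hε'
    have hε'0 : 0 < ε' := lt_min hε (by norm_num)
    have hε'1 : ε' ≤ 1 / 4 := min_le_right _ _
    have hε'2 : ε' ≤ ε := min_le_left _ _
    have hb : ((k : ℝ) - 1) / (2 * k) < 1 / 2 + ε' := by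
      rw [div_lt_iff₀ (by positivity)]
      nlinarith
    obtain ⟨P, C, hC⟩ := h k hk2 (1 / 2 + ε') hb
    have hC' : ∀ x : ℝ, 1 ≤ x → ∫ y in (1 : ℝ)..x, (Err k P y) ^ 2 ≤
        C * x ^ (1 + 2 * (1 / 2 + ε')) := hC
    obtain ⟨C₁, hC₁0, hC₁⟩ := Converse.one_sided_of_mean_square hC'
    refine ⟨k, le_max_left _ _, P,
      Converse.isMainPoly_of_mean_square (by linarith) (by linarith) hC', 1, Or.inl rfl, C₁, ?_⟩
    intro x hx
    refine (hC₁ x hx).trans (mul_le_mul_of_nonneg_left ?_ hC₁0)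
    exact Real.rpow_le_rpow_of_exponent_le hx (by linarith)
  · intro h k hk b hb
    exact MeanSquare.mean_square_of_LH (Growth.lh_of_one_sided h) hk hb

end Pool.Agent.Results.MP_bc6037_nt.OneSidedInfinitelyOften
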